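import Pool.Agent.H49.BigFin
import Pool.Agent.H61.BigZ
import Pool.Agent.Lead.Sel.All

theorem Pool.Agent.Results.MP_8e9775_nt.NormalityFalse.result :
    ∃ (a : ℕ → ℂ) (F : ℂ → ℂ), Pool.Agent.H49.SelS.Primitive a F ∧
      ¬ ∃ C x₀ : ℝ, ∀ x : ℝ, x₀ ≤ x →
        |Pool.Agent.H49.SelS.primeSum a x - Real.log (Real.log x)| ≤ C :=
  Pool.Agent.H49.Big.fin8e9775 Pool.Agent.Lead.Sel.cg0All Pool.Agent.Lead.Sel.cg1All
    (Pool.Agent.H61.Big.big Pool.Agent.Lead.Sel.hohAll Pool.Agent.Lead.Sel.ker0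
      Pool.Agent.Lead.Sel.mel)
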